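import Pool.Agent.H828R3.Exc.Inv

set_option autoImplicit false

/-! Large excursions inside every invariant class, in particular among the integers which reach 1. -/

namespace Pool.Agent.Results.MP_0a5adf_nt.InvariantClasses

/-- the accelerated `3x+1` map -/
def T (n : ℕ) : ℕ := if n % 2 = 0 then n / 2 else (3 * n + 1) / 2

theorem T_eq : T = Pool.Agent.Helper894.Collatz.T := rfl

/-- Let `A` be a set of positive integers which contains with `n` also `T n` and all preimages of `n`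
(for example the integers which reach 1), and let every `n ∈ A` reach the set `F`. Then for some
`c, κ > 0`, for all large `N` and all `1 ≤ λ ≤ N^κ`, at least `c N / λ` of the integers `n ≤ N` lie in
`A`, reach `F` within `(2 / log (4/3) + η) log n` steps and satisfy `t(n) ≥ λ n`. -/
theorem result (A F : Set ℕ) (hA : ∀ n : ℕ, 1 ≤ n → (n ∈ A ↔ T n ∈ A))
    (hF : ∀ n : ℕ, 1 ≤ n → n ∈ A → ∃ i : ℕ, T^[i] n ∈ F) (hne : ∃ n : ℕ, 1 ≤ n ∧ n ∈ A)
    (η : ℝ) (hη : 0 < η) :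
    ∃ c κ : ℝ, 0 < c ∧ 0 < κ ∧ ∃ N₀ : ℕ, ∀ N : ℕ, N₀ ≤ N → ∀ lam : ℝ, 1 ≤ lam →
      lam ≤ (N : ℝ) ^ κ → c * (N / lam) ≤
        ({n : ℕ | 1 ≤ n ∧ n ≤ N ∧ n ∈ A ∧
          (∃ i : ℕ, (i : ℝ) ≤ (2 / Real.log (4 / 3) + η) * Real.log n ∧ T^[i] n ∈ F) ∧
          ∃ k, lam * n ≤ (T^[k] n : ℕ)}.ncard : ℝ) := by
  obtain ⟨n0, h0, h1⟩ := hne
  rw [T_eq] at hA hF ⊢
  exact Pool.Agent.H828R3.Exc.inv_large (P := fun n => n ∈ A) (F := fun n => n ∈ F) hA hF h0 h1 hη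

end Pool.Agent.Results.MP_0a5adf_nt.InvariantClasses
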