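import Pool.Agent.H828R3.Exc.UpR
import Pool.Agent.H828R3.Exc.Low

set_option autoImplicit false

/-! The number of starting points with a large excursion. -/

namespace Pool.Agent.Results.MP_0a5adf_nt.LargeExcursions

/-- the accelerated `3x+1` map -/
def T (n : ℕ) : ℕ := if n % 2 = 0 then n / 2 else (3 * n + 1) / 2

/-- the trajectory of `n` exceeds `V` before it reaches a value `≤ y` -/
def ExceedsBefore (V y : ℝ) (n : ℕ) : Prop :=
  ∃ k, V < (T^[k] n : ℕ) ∧ ∀ j ≤ k, y < (T^[j] n : ℕ)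

/-- the trajectory of `n` never reaches a value `≤ y` -/
def StaysAbove (y : ℝ) (n : ℕ) : Prop := ∀ k, y < (T^[k] n : ℕ)

/-- the number of positive integers `n ≤ x` with the property `P` -/
noncomputable def count (P : ℕ → Prop) (x : ℝ) : ℝ := ({n : ℕ | 1 ≤ n ∧ (n : ℝ) ≤ x ∧ P n}.ncard : ℝ)

theorem T_eq : T = Pool.Agent.Helper894.Collatz.T := rfl

/-- The number of `n ≤ x` whose trajectory exceeds `V` before it reaches a value `≤ y`. -/
theorem result :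
    (∀ x y V : ℝ, 2 ≤ x → 1 ≤ y → x ≤ V →
      count (fun n => ExceedsBefore V y n ∨ StaysAbove y n) x ≤
        140000 * (Real.log x) ^ 5 * (x ^ 2 / V + x / y ^ ((1 : ℝ) / 21))) ∧
    (∀ θ : ℝ, 0 < θ → θ < 1 → ∃ x₀ : ℝ, ∀ x : ℝ, x₀ ≤ x → ∀ V : ℝ, x ≤ V →
      (V ≤ x ^ (1 + (1 - θ) / 12) → x ^ 2 / (24 * V) ≤ count (ExceedsBefore V (x ^ θ)) x) ∧
      (V ≤ x ^ (1 + θ / 21) →
        count (ExceedsBefore V (x ^ θ)) x ≤ 280000 * (Real.log x) ^ 5 * (x ^ 2 / V))) := by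
  have main : ∀ x y V : ℝ, 2 ≤ x → 1 ≤ y → x ≤ V →
      count (fun n => ExceedsBefore V y n ∨ StaysAbove y n) x ≤
        140000 * (Real.log x) ^ 5 * (x ^ 2 / V + x / y ^ ((1 : ℝ) / 21)) := by
    intro x y V hx hy hV
    have h := Pool.Agent.H828R3.Exc.upper_real hx hy hV
    rw [← T_eq] at h
    have e : x / y ^ ((1 : ℝ) / 21) = x * y ^ (-(1 / 21) : ℝ) := by
      rw [Real.rpow_neg (by linarith), div_eq_mul_inv]
    rw [e, add_comm (x ^ 2 / V)]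
    refine le_trans ?_ h
    unfold count
    have hsub : {n : ℕ | 1 ≤ n ∧ (n : ℝ) ≤ x ∧ (ExceedsBefore V y n ∨ StaysAbove y n)} ⊆
        {n : ℕ | 1 ≤ n ∧ (n : ℝ) ≤ x ∧
          ¬ ∃ m, ((T^[m] n : ℕ) : ℝ) ≤ y ∧ ∀ j ≤ m, ((T^[j] n : ℕ) : ℝ) ≤ V} := by
      rintro n ⟨h1, h2, h3⟩
      refine ⟨h1, h2, ?_⟩
      rintro ⟨m, hm1, hm2⟩
      rcases h3 with ⟨k, hk1, hk2⟩ | h3
      · rcases Nat.lt_or_ge k m with h4 | h4
        · exact absurd (hm2 k h4.le) (not_le.2 hk1)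
        · exact absurd hm1 (not_le.2 (hk2 m h4))
      · exact absurd hm1 (not_le.2 (h3 m))
    have hfin : {n : ℕ | 1 ≤ n ∧ (n : ℝ) ≤ x ∧
          ¬ ∃ m, ((T^[m] n : ℕ) : ℝ) ≤ y ∧ ∀ j ≤ m, ((T^[j] n : ℕ) : ℝ) ≤ V}.Finite := by
      apply (Set.finite_Icc 1 ⌊x⌋₊).subset
      rintro n ⟨h1, h2, -⟩
      exact ⟨h1, Nat.le_floor h2⟩
    exact_mod_cast Set.ncard_le_ncard hsub hfin
  refine ⟨main, ?_⟩
  intro θ h0 h1
  obtain ⟨x₁, hx₁⟩ := Pool.Agent.H828R3.Exc.low_real h0 h1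
  refine ⟨max 2 x₁, fun x hx V hV => ?_⟩
  have hx2 : 2 ≤ x := le_trans (le_max_left _ _) hx
  have hxx₁ : x₁ ≤ x := le_trans (le_max_right _ _) hx
  have hx0 : 0 < x := by linarith
  have hV0 : 0 < V := by linarith
  refine ⟨fun hV2 => ?_, fun hV2 => ?_⟩
  · have h := hx₁ x hxx₁ V hV hV2
    rw [div_div, mul_comm V] at h
    exact h
  · have hy : 1 ≤ x ^ θ := Real.one_le_rpow (by linarith) h0.le
    have h := main x (x ^ θ) V hx2 hy hV
    have hmono : count (ExceedsBefore V (x ^ θ)) x ≤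
        count (fun n => ExceedsBefore V (x ^ θ) n ∨ StaysAbove (x ^ θ) n) x := by
      unfold count
      have hfin : {n : ℕ | 1 ≤ n ∧ (n : ℝ) ≤ x ∧
          (ExceedsBefore V (x ^ θ) n ∨ StaysAbove (x ^ θ) n)}.Finite := by
        apply (Set.finite_Icc 1 ⌊x⌋₊).subset
        rintro n ⟨h1, h2, -⟩
        exact ⟨h1, Nat.le_floor h2⟩
      have hsub : {n : ℕ | 1 ≤ n ∧ (n : ℝ) ≤ x ∧ ExceedsBefore V (x ^ θ) n} ⊆
          {n : ℕ | 1 ≤ n ∧ (n : ℝ) ≤ x ∧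
          (ExceedsBefore V (x ^ θ) n ∨ StaysAbove (x ^ θ) n)} :=
        fun n hn => ⟨hn.1, hn.2.1, Or.inl hn.2.2⟩
      exact_mod_cast Set.ncard_le_ncard hsub hfin
    have hterm : x / (x ^ θ) ^ ((1 : ℝ) / 21) ≤ x ^ 2 / V := by
      rw [← Real.rpow_mul hx0.le, div_le_div_iff₀ (Real.rpow_pos_of_pos hx0 _) hV0]
      have e : x ^ (1 + θ / 21) = x * x ^ (θ * (1 / 21)) := by
        rw [Real.rpow_add hx0, Real.rpow_one]; congr 2; ring
      rw [e] at hV2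
      calc x * V ≤ x * (x * x ^ (θ * (1 / 21))) := mul_le_mul_of_nonneg_left hV2 hx0.le
        _ = _ := by ring
    have hL : 0 ≤ Real.log x ^ 5 := by
      have := Real.log_nonneg (show (1 : ℝ) ≤ x by linarith)
      positivity
    calc count (ExceedsBefore V (x ^ θ)) x
        ≤ 140000 * (Real.log x) ^ 5 * (x ^ 2 / V + x / (x ^ θ) ^ ((1 : ℝ) / 21)) := hmono.trans h
      _ ≤ 140000 * (Real.log x) ^ 5 * (x ^ 2 / V + x ^ 2 / V) := by
          apply mul_le_mul_of_nonneg_left _ (by positivity)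
          linarith
      _ = _ := by ring

end Pool.Agent.Results.MP_0a5adf_nt.LargeExcursions
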