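import Mathlib
import Pool.Agent.H547R3.Sub.Tqk2

set_option autoImplicit false

namespace Pool.Agent.Results.MP_0a5adf_nt.SimpleExcursions

/-- The accelerated `3x+1` map on the natural numbers. -/
def T (n : ℕ) : ℕ := if n % 2 = 0 then n / 2 else (3 * n + 1) / 2

/-- The factor `w a, w (a+1), ..., w (b-1)` of the sequence `w` has period `π`. -/
def HasPeriod (w : ℕ → ℕ) (π a b : ℕ) : Prop := ∀ j, a ≤ j → j + π < b → w (j + π) = w j

/-- The word `w 0, w 1, ..., w (n-1)` is a concatenation of `s` words (cut at `0 = t 0 ≤ t 1 ≤ ... ≤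
t s = n`), each of which has some period `π` with `1 ≤ π ≤ ℓ`. -/
def Splits (w : ℕ → ℕ) (ℓ s n : ℕ) : Prop :=
  ∃ t : ℕ → ℕ, t 0 = 0 ∧ t s = n ∧ (∀ i < s, t i ≤ t (i + 1)) ∧
    ∀ i < s, ∃ π, 1 ≤ π ∧ π ≤ ℓ ∧ HasPeriod w π (t i) (t (i + 1))

open Pool.Agent.H547R3.Sub in
lemma T_eq : T = SP := by
  funext x; simp [T, SP]

open Pool.Agent.H547R3.Sub in
lemma dec_of_splits {x ℓ s n : ℕ} (h : Splits (fun i => T^[i] x % 2) ℓ s n) :
    Dec (par (3 : ℕ) 1 x) ℓ s 0 n := by
  obtain ⟨t, h0, hm, hmono, hper⟩ := h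
  refine ⟨t, h0, hm, hmono, fun i hi => ?_⟩
  obtain ⟨π, h1, h2, h3⟩ := hper i hi
  refine ⟨π, h1, h2, fun j hj1 hj2 => ?_⟩
  have h4 := h3 j hj1 hj2
  simp only [T_eq] at h4
  push_cast
  rw [par_nat, par_nat, h4]

/-- growth of a trajectory -/
lemma size (x : ℕ) (a : ℕ) : ((T^[a] x : ℕ) : ℝ) + 1 ≤ (3 / 2) ^ a * ((x : ℝ) + 1) := by
  induction a with
  | zero => simp
  | succ a ih =>
    rw [Function.iterate_succ_apply']
    set y := T^[a] x with hy
    have h1 : ((T y : ℕ) : ℝ) + 1 ≤ 3 / 2 * ((y : ℝ) + 1) := by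
      have h2 : 2 * (T y + 1) ≤ 3 * (y + 1) := by
        unfold T; split_ifs <;> omega
      have h3 : (2 : ℝ) * (((T y : ℕ) : ℝ) + 1) ≤ 3 * ((y : ℝ) + 1) := by exact_mod_cast h2
      linarith
    calc _ ≤ 3 / 2 * ((y : ℝ) + 1) := h1
      _ ≤ 3 / 2 * ((3 / 2) ^ a * ((x : ℝ) + 1)) := by linarith
      _ = _ := by ring

open Pool.Agent.H547R3.Sub in
/-- For all `s` and `η > 0` there is `K` such that for all `n ≥ 1` and all `k, ℓ`: if the word of the
first `k` parities of the trajectory of `n` is a concatenation of `s` words each having a period at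
most `ℓ`, then `T^k n ≤ exp (K (ℓ + 1)) n ^ (log_2 3 + η)`. -/
theorem result (s : ℕ) (η : ℝ) (hη : 0 < η) :
    ∃ K : ℝ, ∀ n k ℓ : ℕ, 1 ≤ n → Splits (fun i => T^[i] n % 2) ℓ s k →
      ((T^[k] n : ℕ) : ℝ) ≤ Real.exp (K * (ℓ + 1)) * (n : ℝ) ^ (Real.logb 2 3 + η) := by
  have hl2 : 0 < Real.log 2 := Real.log_pos (by norm_num)
  have hl32 : 0 < Real.log (3 / 2) := Real.log_pos (by norm_num)
  have hl3 : Real.log 3 = Real.log (3 / 2) + Real.log 2 := by
    rw [← Real.log_mul (by norm_num) (by norm_num)]; norm_num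
  have hl32' : Real.log (3 / 2) ≤ Real.log 2 := Real.log_le_log (by norm_num) (by norm_num)
  obtain ⟨ε, hε, n0, hn0⟩ :=
    init_gen2 (q := 3) Nat.prime_three (by norm_num) 1 (by norm_num) s η hη
  refine ⟨Real.log (3 / 2) * (n0 + 2 + 1 / ε) + Real.log 2, fun x k ℓ hx1 hS => ?_⟩
  have hxR : (1 : ℝ) ≤ x := by exact_mod_cast hx1
  have hx0 : (0 : ℝ) < x := by linarith
  have hlogx : 0 ≤ Real.log x := Real.log_nonneg hxR
  have hℓ0 : (0 : ℝ) ≤ ℓ := Nat.cast_nonneg _
  set K' : ℕ := n0 + ⌈(ℓ : ℝ) / ε⌉₊ + ⌈(1 + η) * Real.logb 2 x⌉₊ with hK'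
  have hlb : 0 ≤ (1 + η) * Real.logb 2 x := by
    rw [Real.logb]; positivity
  have hK'le : (K' : ℝ) ≤ n0 + ℓ / ε + 2 + (1 + η) * Real.logb 2 x := by
    have h1 := Nat.ceil_lt_add_one (show (0 : ℝ) ≤ (ℓ : ℝ) / ε by positivity)
    have h2 := Nat.ceil_lt_add_one hlb
    rw [hK']
    push_cast
    linarith
  -- an index `k' ≤ K'` with the same value
  obtain ⟨k', hk', hval⟩ : ∃ k' ≤ K', T^[k] x = T^[k'] x := by
    rcases Nat.lt_or_ge K' k with h | h
    · have hD := (dec_of_splits hS).sub (a' := 0) (b' := 0 + K') le_rfl (by omega) (by omega)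
      have hℓK : (ℓ : ℝ) ≤ ε * K' := by
        have h1 := Nat.le_ceil ((ℓ : ℝ) / ε)
        have h2 : ((⌈(ℓ : ℝ) / ε⌉₊ : ℕ) : ℝ) ≤ K' := by
          exact_mod_cast (show ⌈(ℓ : ℝ) / ε⌉₊ ≤ K' by omega)
        have h3 := h1.trans h2
        rw [div_le_iff₀ hε] at h3
        linarith
      obtain ⟨j, π, -, h1, h2, h3, h4⟩ := hn0 (x : ℤ) 0 K' ℓ (by omega) hℓK
        (by
          simp only [Function.iterate_zero, id, Int.cast_natCast, Nat.abs_cast]
          refine (Nat.le_ceil _).trans ?_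
          exact_mod_cast (show ⌈(1 + η) * Real.logb 2 x⌉₊ ≤ K' by omega)) hD
      rw [zero_add] at h3
      have h5 := Tm_cast x (j + π)
      have h6 := Tm_cast x j
      push_cast at h4
      rw [h5, h6] at h4
      have h7 : SP^[j + π] x = SP^[j] x := by exact_mod_cast h4
      rw [← T_eq] at h7
      have h8 : ∀ N i, T^[j + i + π * N] x = T^[j + i] x := by
        intro N i
        induction N with
        | zero => rfl
        | succ N ih =>
          rw [show j + i + π * (N + 1) = (i + π * N) + (j + π) by ring,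
            Function.iterate_add_apply, h7, ← Function.iterate_add_apply,
            show i + π * N + j = j + i + π * N by ring, ih]
      refine ⟨j + (k - j) % π, ?_, ?_⟩
      · have := Nat.mod_lt (k - j) (show 0 < π by omega)
        omega
      · rw [← h8 ((k - j) / π) ((k - j) % π)]
        congr 1
        have := Nat.mod_add_div (k - j) π
        omega
    · exact ⟨k, h, rfl⟩
  rw [hval]
  have h1 := size x k'
  have h2 : ((3 : ℝ) / 2) ^ k' ≤ (3 / 2) ^ K' := pow_le_pow_right₀ (by norm_num) hk'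
  have h3 : ((T^[k'] x : ℕ) : ℝ) ≤ (3 / 2) ^ K' * (2 * x) := by
    have h4 : ((3 : ℝ) / 2) ^ k' * ((x : ℝ) + 1) ≤ (3 / 2) ^ K' * (2 * x) :=
      mul_le_mul h2 (by linarith) (by positivity) (by positivity)
    linarith
  refine h3.trans ?_
  have e1 : ((3 : ℝ) / 2) ^ K' * (2 * x) =
      Real.exp (Real.log (3 / 2) * K' + Real.log 2 + Real.log x) := by
    rw [Real.exp_add, Real.exp_add, Real.exp_log (by norm_num : (0 : ℝ) < 2), Real.exp_log hx0,
      mul_comm (Real.log (3 / 2)), Real.exp_nat_mul, Real.exp_log (by norm_num)]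
    ring
  have e2 : (x : ℝ) ^ (Real.logb 2 3 + η) = Real.exp (Real.log x * (Real.logb 2 3 + η)) :=
    Real.rpow_def_of_pos hx0 _
  rw [e1, e2, ← Real.exp_add]
  apply Real.exp_le_exp.2
  have h4 := mul_le_mul_of_nonneg_left hK'le hl32.le
  have h5 : Real.log (3 / 2) * ((1 + η) * Real.logb 2 x) ≤
      Real.log x * (Real.logb 2 3 + η) - Real.log x := by
    rw [Real.logb, Real.logb, hl3, add_div, div_self hl2.ne']
    have h6 : Real.log (3 / 2) / Real.log 2 ≤ 1 := by rw [div_le_one hl2]; exact hl32'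
    have h7 : 0 ≤ Real.log (3 / 2) / Real.log 2 := by positivity
    have h8 : Real.log (3 / 2) * ((1 + η) * (Real.log x / Real.log 2)) =
        (1 + η) * (Real.log (3 / 2) / Real.log 2) * Real.log x := by ring
    rw [h8]
    have h9 : η * (Real.log (3 / 2) / Real.log 2) ≤ η := mul_le_of_le_one_right hη.le h6
    have h10 := mul_le_mul_of_nonneg_right h9 hlogx
    nlinarith
  have h11 : 0 ≤ Real.log (3 / 2) * (n0 + 2) * ℓ := by positivity
  have h12 : 0 ≤ Real.log 2 * ℓ := by positivity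
  have h13 : 0 ≤ Real.log (3 / 2) * (1 / ε) := by positivity
  have h14 : (Real.log (3 / 2) * (n0 + 2 + 1 / ε) + Real.log 2) * (ℓ + 1) =
      Real.log (3 / 2) * (n0 + 2) * ℓ + Real.log (3 / 2) * (ℓ / ε) + Real.log 2 * ℓ +
      Real.log (3 / 2) * (n0 + 2) + Real.log (3 / 2) * (1 / ε) + Real.log 2 := by ring
  rw [h14]
  linarith

end Pool.Agent.Results.MP_0a5adf_nt.SimpleExcursions
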